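import Mathlib
import Pool.Agent.Q284.DD.Basic

set_option autoImplicit false

/-!
Successive ratios of singleton double descent counts: the conjectured inequality fails for
`n = 7`, `i = 2`.
-/

namespace Pool.Agent.Results.MP_f8a98e_co.FailsAtSeven

open Finset

/-- `i` is a double descent of the permutation `w` of `{1, ..., n}`, positions being numbered
from `1`: `2 ≤ i ≤ n - 1` and `w(i-1) > w(i) > w(i+1)`. -/
def IsDD {n : ℕ} (w : Equiv.Perm (Fin n)) (i : ℕ) : Prop :=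
  ∃ (_ : 2 ≤ i) (_ : i + 1 ≤ n), w ⟨i - 1, by omega⟩ < w ⟨i - 2, by omega⟩ ∧
    w ⟨i, by omega⟩ < w ⟨i - 1, by omega⟩

/-- the number of permutations of `[n]` whose double descent set is exactly `I` -/
noncomputable def dd (I : Finset ℕ) (n : ℕ) : ℕ :=
  Nat.card {w : Equiv.Perm (Fin n) // ∀ i, IsDD w i ↔ i ∈ I}

open Pool.Agent.Q284.DD (N chk dd_succ)

lemma c2 : ∑ j ∈ range 7, N 6 j (chk {2} false 1) = 426 := by decide +kernel
lemma c3 : ∑ j ∈ range 7, N 6 j (chk {3} false 1) = 363 := by decide +kernel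
lemma c4 : ∑ j ∈ range 7, N 6 j (chk {4} false 1) = 462 := by decide +kernel
lemma c5 : ∑ j ∈ range 7, N 6 j (chk {5} false 1) = 363 := by decide +kernel

lemma v2 : dd {2} 7 = 426 := by
  have h := dd_succ {2} 6
  rw [if_neg (by simp), c2] at h
  exact h

lemma v3 : dd {3} 7 = 363 := by
  have h := dd_succ {3} 6
  rw [if_neg (by simp), c3] at h
  exact h

lemma v4 : dd {4} 7 = 462 := by
  have h := dd_succ {4} 6
  rw [if_neg (by simp), c4] at h
  exact h

lemma v5 : dd {5} 7 = 363 := by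
  have h := dd_succ {5} 6
  rw [if_neg (by simp), c5] at h
  exact h

/-- The conjectured inequalities fail: for `n = 7` and `i = 2` (even, `2 < ⌈7/2⌉ - 1 = 3`) one has
`dd({2};7)/dd({3};7) = 426/363 < 462/363 = dd({4};7)/dd({5};7)`. -/
theorem result : ¬ ∀ n i : ℕ, 1 ≤ n → 1 ≤ i → (i : ℤ) < ⌈(n : ℚ) / 2⌉ - 1 →
    (Even i → (dd {i + 2} n : ℚ) / dd {i + 3} n < (dd {i} n : ℚ) / dd {i + 1} n) ∧
    (Odd i → (dd {i} n : ℚ) / dd {i + 1} n < (dd {i + 2} n : ℚ) / dd {i + 3} n) := by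
  intro h
  have hc : ((2 : ℕ) : ℤ) < ⌈((7 : ℕ) : ℚ) / 2⌉ - 1 := by
    rw [lt_sub_iff_add_lt, Int.lt_ceil]
    norm_num
  have h1 := (h 7 2 (by norm_num) (by norm_num) hc).1 (by decide)
  simp only [Nat.reduceAdd] at h1
  rw [v2, v3, v4, v5] at h1
  norm_num at h1

end Pool.Agent.Results.MP_f8a98e_co.FailsAtSeven
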